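import Pool.Agent.H93W.Plane
import Pool.Agent.H93W.Const
import Pool.Agent.Y282.RB.K3

set_option autoImplicit false

open MeasureTheory

namespace Pool.Agent.Results.MP_dd244f_an.AngularClasses

/-- The `n`-th power of the Beurling transform: the Fourier multiplier with symbol
`(conj ξ / ξ) ^ n`, in the literal form of the frozen statement. -/
noncomputable def T (n : ℕ) (f : ℂ → ℂ) (z : ℂ) : ℂ :=
  ∫ ξ : ℂ,
    Complex.exp (2 * (Real.pi : ℂ) * Complex.I * (((z.re * ξ.re + z.im * ξ.im : ℝ)) : ℂ)) *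
      ((starRingEnd ℂ ξ / ξ) ^ n *
        ∫ x : ℂ, Complex.exp (-(2 * (Real.pi : ℂ) * Complex.I *
          (((x.re * ξ.re + x.im * ξ.im : ℝ)) : ℂ))) * f x)

/-- The constant `(1/q)_n / (1/p)_n` of the question. -/
noncomputable def K (n : ℕ) (p : ℝ) : ℝ :=
  (ascPochhammer ℝ n).eval (1 - 1 / p) / (ascPochhammer ℝ n).eval (1 / p)

/-- The number `1 + √(5 n (1 + log (1 + n)))`. -/
noncomputable def B (n : ℕ) : ℝ := 1 + Real.sqrt (5 * n * (1 + Real.log (1 + n)))

/-- Let `n ≥ 1`, `p ≥ 2` be real and `k ≤ n` an integer (possibly negative). For every Schwartz function `f` with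
`f (a z) = a ^ k f z` for `|a| = 1` (that is, `f (r e^{iθ}) = e^{i k θ} φ(r)`) the `L^p` norm of
`T ^ n f` is at most `B n ^ (1 - 2/p)` times the `L^p` norm of `f`, and `B n ^ (1 - 2/p)` is at most
the constant `(1/q)_n / (1/p)_n` of the question; so the inequality of the question holds for
these `f`. -/
theorem result (n : ℕ) (p : ℝ) (k : ℤ) (hn : 1 ≤ n) (hp : 2 ≤ p) (hk : k ≤ n) :
    (∀ f : SchwartzMap ℂ ℂ, (∀ a z : ℂ, ‖a‖ = 1 → f (a * z) = a ^ k * f z) →
      eLpNorm (T n f) (ENNReal.ofReal p) (volume : Measure ℂ)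
        ≤ ENNReal.ofReal (B n ^ (1 - 2 / p)) *
          eLpNorm f (ENNReal.ofReal p) (volume : Measure ℂ)) ∧
    B n ^ (1 - 2 / p) ≤ K n p ∧
    (∀ f : SchwartzMap ℂ ℂ, (∀ a z : ℂ, ‖a‖ = 1 → f (a * z) = a ^ k * f z) →
      eLpNorm (T n f) (ENNReal.ofReal p) (volume : Measure ℂ)
        ≤ ENNReal.ofReal (K n p) * eLpNorm f (ENNReal.ofReal p) (volume : Measure ℂ)) := by
  have hT : ∀ f, T n f = Y282.RB.Tn n f := fun f => rfl
  have hK : K n p = Y282.RB.Cn p n := (Y282.RB.K3.main n p (by linarith)).symm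
  obtain ⟨j, hj⟩ : ∃ j : ℕ, k = (n : ℤ) - j :=
    ⟨((n : ℤ) - k).toNat, by rw [Int.toNat_of_nonneg (by omega)]; ring⟩
  have h1 : ∀ f : SchwartzMap ℂ ℂ, (∀ a z : ℂ, ‖a‖ = 1 → f (a * z) = a ^ k * f z) →
      eLpNorm (T n f) (ENNReal.ofReal p) (volume : Measure ℂ)
        ≤ ENNReal.ofReal (B n ^ (1 - 2 / p)) *
          eLpNorm f (ENNReal.ofReal p) (volume : Measure ℂ) := by
    intro f hf
    rw [hT]
    rcases eq_or_lt_of_le hp with h2 | h2
    · subst h2
      have e1 : (1 : ℝ) - 2 / 2 = 0 := by norm_num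
      have e2 : ENNReal.ofReal 2 = 2 := by simp
      rw [e1, Real.rpow_zero, ENNReal.ofReal_one, one_mul, e2,
        eLpNorm_eq_lintegral_rpow_enorm_toReal (by norm_num) (by norm_num),
        eLpNorm_eq_lintegral_rpow_enorm_toReal (by norm_num) (by norm_num)]
      have e3 := Pool.Agent.Y338.BP.T_two f n
      have e4 : ∀ x : ENNReal, x ^ (ENNReal.toReal 2) = x ^ 2 := fun x => by
        rw [← ENNReal.rpow_natCast]; norm_num
      simp_rw [e4]
      rw [Y282.RB.K.Tn_eq, e3]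
    · have hI := (H93W.Kern.kap_l1 (j := j) hn).2
      have h3 := H93W.Plane.schwartz (j := j) hn (f := f) (by
        rw [← hj]
        exact hf) h2
      refine h3.trans ?_
      have h4 : 0 ≤ 1 - 2 / p := by
        rw [sub_nonneg, div_le_one (by linarith)]
        exact hp
      gcongr
      · have := H93W.Op.Ik_nonneg n j
        linarith
      · unfold B H93W.Op.Ik
        linarith
  have h2 : B n ^ (1 - 2 / p) ≤ K n p := by
    rw [hK]
    exact H93W.Const.main hp hn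
  refine ⟨h1, h2, fun f hf => (h1 f hf).trans ?_⟩
  gcongr

end Pool.Agent.Results.MP_dd244f_an.AngularClasses
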