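import Pool.Agent.H93W.W10
import Pool.Agent.Y282.RB.K3

/-!
# Sums of many angular modes `≤ n` and the Pochhammer bound for the Beurling operator

The inequality of the question for functions with many angular modes: the functions with angular
spectrum in `[0, n]` for `n ≤ 10 ^ 32`, and the functions with spectrum in a window `[n - J, n]`
whose length `J` may be of order `n p² / log (n p)`.
-/

set_option autoImplicit false

open MeasureTheory

namespace Pool.Agent.Results.MP_dd244f_an.ModeWindows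

/-- The `n`-th power of the Beurling transform: the Fourier multiplier with symbol
`(conj ξ / ξ) ^ n`, in the literal form of the frozen statement. -/
noncomputable def T (n : ℕ) (f : ℂ → ℂ) (z : ℂ) : ℂ :=
  ∫ ξ : ℂ,
    Complex.exp (2 * (Real.pi : ℂ) * Complex.I * (((z.re * ξ.re + z.im * ξ.im : ℝ)) : ℂ)) *
      ((starRingEnd ℂ ξ / ξ) ^ n *
        ∫ x : ℂ, Complex.exp (-(2 * (Real.pi : ℂ) * Complex.I *
          (((x.re * ξ.re + x.im * ξ.im : ℝ)) : ℂ))) * f x)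

/-- The constant `(1/q)_n / (1/p)_n` of the question. -/
noncomputable def K (n : ℕ) (p : ℝ) : ℝ :=
  (ascPochhammer ℝ n).eval (1 - 1 / p) / (ascPochhammer ℝ n).eval (1 / p)

/-- Angular mode `k`: `f (r e^{iθ}) = e^{ikθ} φ(r)`. -/
def Mode (k : ℤ) (f : ℂ → ℂ) : Prop := ∀ a z : ℂ, ‖a‖ = 1 → f (a * z) = a ^ k * f z

/-- The constant `√|S| + √(log (1 + n + J) · ∑_{j ∈ S} 2 n j / (n + j))`. -/
noncomputable def B (n J : ℕ) (S : Finset ℕ) : ℝ :=
  Real.sqrt S.card +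
    Real.sqrt ((∑ j ∈ S, 2 * (n : ℝ) * j / ((n : ℝ) + j)) * Real.log (1 + n + J))

/-- **Sums of angular modes.** Let `n ≥ 1`, `p ≥ 2`, let `S` be a finite set of integers in `[0, J]`
and let `f = ∑_{j ∈ S} g j` be a sum of Schwartz functions `g j` of angular mode `n - j`. Then
`‖T^n f‖_p ≤ B^(1 - 2/p) ‖f‖_p` with the constant `B = B n J S` above. If `B ≤ 7.11 n` or
`B ≤ 0.963 n (p - 1)`, then `B^(1 - 2/p) ≤ (1/q)_n / (1/p)_n`, so that the inequality of the question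
holds for `f`. The condition `B ≤ 7.11 n` holds for all `S ⊆ [0, J]` if `J ≤ n` and
`(J + 1) (1 + √(log (1 + 2 n))) ≤ 7.11 n`, and for all `S ⊆ [0, n]` if `n ≤ 10 ^ 32`; and always
`B ≤ √(J + 1) (1 + √(2 n log (1 + n + J)))`. -/
theorem result (n J : ℕ) (p : ℝ) (hn : 1 ≤ n) (hp : 2 ≤ p) (S : Finset ℕ) (hS : ∀ j ∈ S, j ≤ J)
    (g : ℕ → SchwartzMap ℂ ℂ) (hg : ∀ j ∈ S, Mode ((n : ℤ) - j) (g j)) :
    eLpNorm (T n (∑ j ∈ S, g j : SchwartzMap ℂ ℂ)) (ENNReal.ofReal p) (volume : Measure ℂ) ≤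
      ENNReal.ofReal (B n J S ^ (1 - 2 / p)) *
        eLpNorm (∑ j ∈ S, g j : SchwartzMap ℂ ℂ) (ENNReal.ofReal p) (volume : Measure ℂ) ∧
    (B n J S ≤ 7.11 * n ∨ B n J S ≤ 0.963 * n * (p - 1) →
      B n J S ^ (1 - 2 / p) ≤ K n p ∧
      eLpNorm (T n (∑ j ∈ S, g j : SchwartzMap ℂ ℂ)) (ENNReal.ofReal p) (volume : Measure ℂ) ≤
        ENNReal.ofReal (K n p) *
          eLpNorm (∑ j ∈ S, g j : SchwartzMap ℂ ℂ) (ENNReal.ofReal p) (volume : Measure ℂ)) ∧
    (J ≤ n → (J + 1) * (1 + Real.sqrt (Real.log (1 + 2 * n))) ≤ 7.11 * n ∨ n ≤ 10 ^ 32 →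
      B n J S ≤ 7.11 * n) ∧
    B n J S ≤ Real.sqrt (J + 1) * (1 + Real.sqrt (2 * n * Real.log (1 + n + J))) := by
  have hT : ∀ f, T n f = Y282.RB.Tn n f := fun f => rfl
  have hK : K n p = Y282.RB.Cn p n := (Y282.RB.K3.main n p (by linarith)).symm
  have hBe : B n J S = Real.sqrt S.card + Real.sqrt (H93W.W1.AT n S * Real.log (1 + n + J)) := rfl
  have hB0 : 0 ≤ B n J S := by
    unfold B
    positivity
  have h1 : eLpNorm (T n (∑ j ∈ S, g j : SchwartzMap ℂ ℂ)) (ENNReal.ofReal p)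
      (volume : Measure ℂ) ≤ ENNReal.ofReal (B n J S ^ (1 - 2 / p)) *
        eLpNorm (∑ j ∈ S, g j : SchwartzMap ℂ ℂ) (ENNReal.ofReal p) (volume : Measure ℂ) := by
    rw [hT]
    rcases eq_or_lt_of_le hp with h2 | h2
    · subst h2
      have e1 : (1 : ℝ) - 2 / 2 = 0 := by norm_num
      have e2 : ENNReal.ofReal 2 = 2 := by simp
      rw [e1, Real.rpow_zero, ENNReal.ofReal_one, one_mul, e2,
        eLpNorm_eq_lintegral_rpow_enorm_toReal (by norm_num) (by norm_num),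
        eLpNorm_eq_lintegral_rpow_enorm_toReal (by norm_num) (by norm_num)]
      have e3 := Pool.Agent.Y338.BP.T_two (∑ j ∈ S, g j : SchwartzMap ℂ ℂ) n
      have e4 : ∀ x : ENNReal, x ^ (ENNReal.toReal 2) = x ^ 2 := fun x => by
        rw [← ENNReal.rpow_natCast]; norm_num
      simp_rw [e4]
      rw [Y282.RB.K.Tn_eq, e3]
    · rw [hBe]
      exact H93W.W8.schwartz hn hS (g := g) (fun j hj => hg j hj) h2
  refine ⟨h1, fun h => ?_, fun h2 h3 => ?_, ?_⟩
  · have h2 : B n J S ^ (1 - 2 / p) ≤ K n p := by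
      rw [hK]
      refine le_trans ?_ (H93W.W10.Cn_ge' hn hp)
      rcases h with h | h
      · exact H93W.W10.const_small hp hB0 h
      · exact H93W.W10.const_large hp hB0 h
    refine ⟨h2, h1.trans ?_⟩
    gcongr
  · rw [hBe]
    rcases h3 with h3 | h3
    · exact (H93W.W9.window h2 hS).trans h3
    · exact H93W.W10.full' hn h3 h2 hS
  · rw [hBe]
    exact H93W.W10.window' hn hS

end Pool.Agent.Results.MP_dd244f_an.ModeWindows
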