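import Pool.Agent.X125.BT.C

/-!
# Polynomials of the Beurling transform

For `|w| < 1` the Fourier multiplier with symbol `b_w (conj ξ / ξ)`, `b_w z = (z - w) / (1 - conj w z)`,
is the Beurling transform after a linear change of variables, so its norm on `L^p`, `p ≥ 2`, is at
most `p - 1` (starting file `NormOneSharp`). On the unit circle every polynomial `P` is
`P(0) + 1/π ∫_{|w|<1} (w P)''(w) b_w dA(w)`, and also
`P(0) + 1/(2π) ∫_{|w|<1} (w² P)'''(w) (1 - |w|²) b_w dA(w)`. Averaging gives the two bounds below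
for all polynomials of the Beurling transform.
-/

set_option autoImplicit false

open MeasureTheory

namespace Pool.Agent.Results.MP_dd244f_an.PolynomialCalculus

/-- the `n`-th power of the Beurling transform of a Schwartz function `f`: the Fourier multiplier
with symbol `(conj ξ / ξ) ^ n`, literal form -/
noncomputable def bp (n : ℕ) (f : SchwartzMap ℂ ℂ) (z : ℂ) : ℂ :=
  ∫ ξ : ℂ,
    Complex.exp (2 * (Real.pi : ℂ) * Complex.I * (((z.re * ξ.re + z.im * ξ.im : ℝ)) : ℂ)) *
      ((starRingEnd ℂ ξ / ξ) ^ n *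
        ∫ x : ℂ, Complex.exp (-(2 * (Real.pi : ℂ) * Complex.I *
          (((x.re * ξ.re + x.im * ξ.im : ℝ)) : ℂ))) * f x)

open Pool.Agent.X125.BT Pool.Agent.TH55.PowA in
lemma core (s : ℕ) (p : ℝ) (hp : 2 ≤ p) (d : ℕ) (a : ℕ → ℂ) (f : SchwartzMap ℂ ℂ) :
    eLpNorm (fun z => ∑ k ∈ Finset.range (d + 1), a k * bp k f z) (ENNReal.ofReal p) volume
      ≤ ENNReal.ofReal (‖a 0‖ + (p - 1) * ∫ w in Metric.ball (0 : ℂ) 1,
          wt s (fun w => ∑ k ∈ Finset.range d, (a (k + 1) / (cc (s + 1) k : ℂ)) * w ^ k) w) *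
        eLpNorm f (ENNReal.ofReal p) volume := by
  have hcc : ∀ j, (cc (s + 1) j : ℂ) ≠ 0 := by
    intro j
    have h : 0 < cc (s + 1) j := by
      unfold cc
      refine mul_pos Real.pi_pos (intervalIntegral.intervalIntegral_pos_of_pos_on ?_ ?_ one_pos)
      · exact (by fun_prop : Continuous fun t : ℝ => t ^ j * (1 - t) ^ (s + 1)).intervalIntegrable _ _
      · intro t ht
        have h1 : 0 < t := ht.1
        have h2 : 0 < 1 - t := by linarith [ht.2]
        positivity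
    exact_mod_cast h.ne'
  have h1 : (fun z => ∑ k ∈ Finset.range (d + 1), a k * bp k f z) =
      fun z => T (fun ξ => ∑ j ∈ Finset.range d, (a (j + 1) / (cc (s + 1) j : ℂ)) *
        (cc (s + 1) j : ℂ) * bs ξ ^ (j + 1)) f z + a 0 * f z := by
    funext z
    rw [Finset.sum_range_succ' (fun k => a k * bp k f z)]
    have h2 : T (fun ξ => ∑ j ∈ Finset.range d, (a (j + 1) / (cc (s + 1) j : ℂ)) *
        (cc (s + 1) j : ℂ) * bs ξ ^ (j + 1)) f z =
        T (fun ξ => ∑ j ∈ Finset.range d, a (j + 1) * bs ξ ^ (j + 1)) f z := by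
      refine T_congr (fun ξ _ => Finset.sum_congr rfl fun j _ => ?_) f z
      rw [div_mul_cancel₀ _ (hcc j)]
    rw [h2, T_sum (Finset.range d) (fun j => a (j + 1)) (fun j ξ => bs ξ ^ (j + 1))
      (fun j _ => Pool.Agent.Y338.BP.adm_pow (j + 1)) f z]
    congr 1
    rw [show bp 0 f z = f z from Pool.Agent.Y338.BP.T_zero f z]
  have hP : (1 : ENNReal) ≤ ENNReal.ofReal p := by
    rw [← ENNReal.ofReal_one]
    exact ENNReal.ofReal_le_ofReal (by linarith)
  have hb := poly_bound hp s d (fun k => a (k + 1) / (cc (s + 1) k : ℂ)) f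
  set I := ∫ w in Metric.ball (0 : ℂ) 1,
          wt s (fun w => ∑ k ∈ Finset.range d, (a (k + 1) / (cc (s + 1) k : ℂ)) * w ^ k) w with hI
  have hI0 : 0 ≤ I := by
    refine setIntegral_nonneg Metric.isOpen_ball.measurableSet fun w hw => ?_
    exact wt_nonneg s _ hw
  have hm : AEStronglyMeasurable (T (fun ξ => ∑ j ∈ Finset.range d,
      (a (j + 1) / (cc (s + 1) j : ℂ)) * (cc (s + 1) j : ℂ) * bs ξ ^ (j + 1)) f) volume := by
    have h3 : T (fun ξ => ∑ j ∈ Finset.range d, (a (j + 1) / (cc (s + 1) j : ℂ)) *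
        (cc (s + 1) j : ℂ) * bs ξ ^ (j + 1)) f = fun z => ∑ j ∈ Finset.range d,
          ((a (j + 1) / (cc (s + 1) j : ℂ)) * (cc (s + 1) j : ℂ)) * T (fun ξ => bs ξ ^ (j + 1)) f z := by
      funext z
      exact T_sum (Finset.range d) _ (fun j ξ => bs ξ ^ (j + 1))
        (fun j _ => Pool.Agent.Y338.BP.adm_pow (j + 1)) f z
    rw [h3]
    exact (continuous_finsetSum _ fun j _ => continuous_const.mul
      (T_cont (Pool.Agent.Y338.BP.adm_pow (j + 1)) f)).aestronglyMeasurable
  rw [h1]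
  refine (eLpNorm_add_le hm (f.continuous.aestronglyMeasurable.const_mul _) hP).trans ?_
  have h4 : eLpNorm (fun z => a 0 * f z) (ENNReal.ofReal p) volume =
      ENNReal.ofReal ‖a 0‖ * eLpNorm f (ENNReal.ofReal p) volume := by
    have := eLpNorm_const_smul (a 0) (f : ℂ → ℂ) (ENNReal.ofReal p) (volume : Measure ℂ)
    rw [← ofReal_norm] at this
    exact this
  rw [h4, ENNReal.ofReal_add (norm_nonneg _) (mul_nonneg (by linarith) hI0), add_mul, add_comm]
  gcongr
  refine hb.trans (le_of_eq ?_)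
  rw [← mul_assoc, ENNReal.ofReal_mul (by linarith), mul_comm (ENNReal.ofReal I)]

open Pool.Agent.X125.BT Pool.Agent.TH55.PowA in
/-- **Polynomials of the Beurling transform.** For `p ≥ 2`, all complex `a_0, …, a_d` and every
Schwartz function `f`, the `L^p` norm of `∑ a_k T^k f` is at most
`|a_0| + (p - 1) / π ∫_{|w| < 1} |∑_{k ≥ 1} k (k + 1) a_k w^(k - 1)| dA(w)` times that of `f`, and at
most `|a_0| + (p - 1) / (2 π) ∫_{|w| < 1} |∑_{k ≥ 1} k (k + 1) (k + 2) a_k w^(k - 1)| (1 - |w|²) dA(w)`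
times that of `f`. -/
theorem result (p : ℝ) (hp : 2 ≤ p) (d : ℕ) (a : ℕ → ℂ) (f : SchwartzMap ℂ ℂ) :
    eLpNorm (fun z => ∑ k ∈ Finset.range (d + 1), a k * bp k f z) (ENNReal.ofReal p) volume
      ≤ ENNReal.ofReal (‖a 0‖ + (p - 1) / Real.pi * ∫ w in Metric.ball (0 : ℂ) 1,
          ‖∑ k ∈ Finset.range d, ((k : ℂ) + 1) * (k + 2) * a (k + 1) * w ^ k‖) *
        eLpNorm f (ENNReal.ofReal p) volume ∧
    eLpNorm (fun z => ∑ k ∈ Finset.range (d + 1), a k * bp k f z) (ENNReal.ofReal p) volume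
      ≤ ENNReal.ofReal (‖a 0‖ + (p - 1) / (2 * Real.pi) * ∫ w in Metric.ball (0 : ℂ) 1,
          ‖∑ k ∈ Finset.range d, ((k : ℂ) + 1) * (k + 2) * (k + 3) * a (k + 1) * w ^ k‖ *
            (1 - ‖w‖ ^ 2)) *
        eLpNorm f (ENNReal.ofReal p) volume := by
  have hpi : (Real.pi : ℂ) ≠ 0 := by exact_mod_cast Real.pi_ne_zero
  have hk : ∀ k : ℕ, ((k : ℂ) + 1) ≠ 0 ∧ ((k : ℂ) + 2) ≠ 0 ∧ ((k : ℂ) + 3) ≠ 0 := by
    intro k
    refine ⟨?_, ?_, ?_⟩
    · have : (((k : ℝ) + 1 : ℝ) : ℂ) ≠ 0 := by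
        rw [Ne, Complex.ofReal_eq_zero]; positivity
      push_cast at this; exact this
    · have : (((k : ℝ) + 2 : ℝ) : ℂ) ≠ 0 := by
        rw [Ne, Complex.ofReal_eq_zero]; positivity
      push_cast at this; exact this
    · have : (((k : ℝ) + 3 : ℝ) : ℂ) ≠ 0 := by
        rw [Ne, Complex.ofReal_eq_zero]; positivity
      push_cast at this; exact this
  constructor
  · have h := core 0 p hp d a f
    refine h.trans (le_of_eq ?_)
    congr 3
    rw [div_mul_eq_mul_div, mul_div_assoc]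
    congr 1
    rw [eq_div_iff Real.pi_ne_zero, mul_comm, ← integral_const_mul]
    refine setIntegral_congr_fun Metric.isOpen_ball.measurableSet fun w _ => ?_
    unfold wt
    rw [pow_zero, mul_one]
    have e : ∑ k ∈ Finset.range d, ((k : ℂ) + 1) * (k + 2) * a (k + 1) * w ^ k =
        (Real.pi : ℂ) * ∑ k ∈ Finset.range d, (a (k + 1) / (cc (0 + 1) k : ℂ)) * w ^ k := by
      rw [Finset.mul_sum]
      refine Finset.sum_congr rfl fun k _ => ?_
      rw [zero_add, cc_one]
      obtain ⟨h1, h2, h3⟩ := hk k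
      push_cast
      field_simp
    rw [e, norm_mul, Complex.norm_real, Real.norm_eq_abs, abs_of_pos Real.pi_pos]
  · have h := core 1 p hp d a f
    refine h.trans (le_of_eq ?_)
    congr 3
    rw [div_mul_eq_mul_div, mul_div_assoc]
    congr 1
    rw [eq_div_iff (by positivity), mul_comm, ← integral_const_mul]
    refine setIntegral_congr_fun Metric.isOpen_ball.measurableSet fun w _ => ?_
    unfold wt
    rw [pow_one]
    have e : ∑ k ∈ Finset.range d, ((k : ℂ) + 1) * (k + 2) * (k + 3) * a (k + 1) * w ^ k =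
        (2 * Real.pi : ℂ) * ∑ k ∈ Finset.range d, (a (k + 1) / (cc (1 + 1) k : ℂ)) * w ^ k := by
      rw [Finset.mul_sum]
      refine Finset.sum_congr rfl fun k _ => ?_
      rw [show 1 + 1 = 2 from rfl, cc_two]
      obtain ⟨h1, h2, h3⟩ := hk k
      push_cast
      field_simp
    rw [e, norm_mul, Complex.normSq_eq_norm_sq]
    have h2 : ‖(2 * Real.pi : ℂ)‖ = 2 * Real.pi := by
      rw [norm_mul, Complex.norm_real, Real.norm_eq_abs, abs_of_pos Real.pi_pos]
      norm_num
    rw [h2]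
    ring

end Pool.Agent.Results.MP_dd244f_an.PolynomialCalculus
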